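import Mathlib
import Pool.Agent.H4.Dust2

set_option autoImplicit false

open Filter Topology

namespace Pool.Agent.Results.MP_c0f49b_an.Common

/-- The Takagi function. -/
noncomputable def takagi (t : ℝ) : ℝ :=
  ∑' n : ℕ, (1 / 2 : ℝ) ^ n * Metric.infDist (2 ^ n * t) (Set.range (Int.cast : ℤ → ℝ))

/-- Some pair `(x, y)` of null sequences over `K` has a dense orbit in `c₀ × c₀` (sup norm) under
`e^λ B × e^μ B` for every `(λ, μ) = (a + t, b + takagi t)`, `t ∈ [0, 1]`. -/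
def Common (K : Type) [RCLike K] (a b : ℝ) : Prop :=
  ∃ x y : ℕ → K, Tendsto x atTop (𝓝 0) ∧ Tendsto y atTop (𝓝 0) ∧
    ∀ t ∈ Set.Icc (0 : ℝ) 1, ∀ u v : ℕ → K, Tendsto u atTop (𝓝 0) → Tendsto v atTop (𝓝 0) →
      ∀ η : ℝ, 0 < η → ∃ k : ℕ, ∀ n : ℕ,
        ‖((Real.exp (a + t) : ℝ) : K) ^ k * x (n + k) - u n‖ ≤ η ∧
        ‖((Real.exp (b + takagi t) : ℝ) : K) ^ k * y (n + k) - v n‖ ≤ η

theorem result (a b : ℝ) (ha : 0 < a) (hb : 0 < b) : Common ℂ a b ∧ Common ℝ a b := by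
  obtain ⟨h0, h2, h3⟩ := H4.Dust.takagi takagi (fun _ => rfl)
  obtain ⟨x, y, hx, hy, H⟩ := H4.Dust.main2
    (fun l m => ∃ t, 0 ≤ t ∧ t ≤ 1 ∧ l = a + t ∧ m = b + takagi t) a b 2 ha hb two_pos
    (by
      rintro _ _ ⟨t, t0, t1, rfl, rfl⟩
      exact ⟨⟨by linarith, by linarith⟩, by linarith [h0 t], by linarith [h2 t]⟩)
    (H4.Dust.curve takagi h0 h3 a b ha hb)
  have hC : ∀ t ∈ Set.Icc (0 : ℝ) 1, ∀ u v : ℕ → ℂ, Tendsto u atTop (𝓝 0) → Tendsto v atTop (𝓝 0) →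
      ∀ η : ℝ, 0 < η → ∃ k : ℕ, ∀ n : ℕ,
        ‖((Real.exp (a + t) ^ k : ℝ) : ℂ) * x (n + k) - u n‖ ≤ η ∧
        ‖((Real.exp (b + takagi t) ^ k : ℝ) : ℂ) * y (n + k) - v n‖ ≤ η := by
    intro t ht u v hu hv η hη
    obtain ⟨k, hk⟩ := H _ _ ⟨t, ht.1, ht.2, rfl, rfl⟩ u v hu hv η hη
    simp only [Real.exp_nat_mul] at hk
    exact ⟨k, fun n => ⟨(hk n).1.le, (hk n).2.le⟩⟩
  refine ⟨⟨x, y, hx, hy, fun t ht u v hu hv η hη => ?_⟩,
    fun n => (x n).re, fun n => (y n).re, (Complex.continuous_re.tendsto 0).comp hx,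
    (Complex.continuous_re.tendsto 0).comp hy, fun t ht u v hu hv η hη => ?_⟩
  · have := hC t ht u v hu hv η hη
    simp only [Complex.ofReal_pow] at this
    exact this
  · obtain ⟨k, hk⟩ := hC t ht (fun n => u n) (fun n => v n)
      ((Complex.continuous_ofReal.tendsto 0).comp hu) ((Complex.continuous_ofReal.tendsto 0).comp hv)
      η hη
    refine ⟨k, fun n => ⟨le_trans (le_of_eq ?_) ((Complex.abs_re_le_norm _).trans (hk n).1),
      le_trans (le_of_eq ?_) ((Complex.abs_re_le_norm _).trans (hk n).2)⟩⟩ <;>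
    simp only [Complex.sub_re, Complex.re_ofReal_mul, Complex.ofReal_re, Real.norm_eq_abs,
      RCLike.ofReal_real_eq_id, id]

end Pool.Agent.Results.MP_c0f49b_an.Common
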